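import Pool.Agent.Zk62.LN.Sh

set_option autoImplicit false

/-!
Comparison of leading coefficients for identities between shifts of periodic meromorphic functions:
finite families of arbitrary periodic quotients of analytic functions by powers of the sine.
-/

namespace Pool.Agent.Zk62.LN

open Finset Filter Topology

/-- quotients of analytic functions by powers of the sine -/
def Nice (f : ℝ → ℝ) : Prop := ∃ (N : ℝ → ℝ) (k : ℕ), (∀ x, AnalyticAt ℝ N x) ∧
  ∀ z, Real.sin (Real.pi * z) ≠ 0 → f z = N z / Real.sin (Real.pi * z) ^ k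

theorem sin_ne_nhds {x : ℝ} (h : Real.sin (Real.pi * x) ≠ 0) :
    ∀ᶠ z in 𝓝 x, Real.sin (Real.pi * z) ≠ 0 := by
  have hc : Continuous fun x : ℝ => Real.sin (Real.pi * x) := by fun_prop
  exact (hc.tendsto x).eventually_ne h

theorem sin_ne_punct (x : ℝ) : ∀ᶠ z in 𝓝[≠] x, Real.sin (Real.pi * z) ≠ 0 := by
  have hA : AnalyticAt ℝ (fun z : ℝ => Real.sin (Real.pi * z)) x :=
    Real.analyticAt_sin.fun_comp (by fun_prop)
  rcases hA.eventually_eq_zero_or_eventually_ne_zero with h | h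
  · exfalso
    have hg : AnalyticOnNhd ℝ (fun z : ℝ => Real.sin (Real.pi * z)) Set.univ := fun y _ =>
      Real.analyticAt_sin.fun_comp (by fun_prop)
    have h1 := hg.eqOn_zero_of_preconnected_of_eventuallyEq_zero isPreconnected_univ
      (Set.mem_univ x) h
    have h2 := h1 (Set.mem_univ (1/2 : ℝ))
    simp only [Pi.zero_apply] at h2
    rw [mul_one_div, Real.sin_pi_div_two] at h2
    exact one_ne_zero h2
  · exact h

theorem Nice.an {f : ℝ → ℝ} (hf : Nice f) {x : ℝ} (h : Real.sin (Real.pi * x) ≠ 0) :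
    AnalyticAt ℝ f x := by
  obtain ⟨N, k, hN, hz⟩ := hf
  refine (an_f (κ := k) hN h).congr ?_
  filter_upwards [sin_ne_nhds h] with z h1
  exact (hz z h1).symm

theorem Nice.mero {f : ℝ → ℝ} (hf : Nice f) (x : ℝ) : MeromorphicAt f x := by
  obtain ⟨N, k, hN, hz⟩ := hf
  refine (mero_f (κ := k) hN x).congr ?_
  filter_upwards [sin_ne_punct x] with z h1
  exact (hz z h1).symm

/-- the sum of the shifts -/
noncomputable def Sg {I : Type} (s : Finset I) (R : I → Polynomial ℝ) (f : I → ℝ → ℝ)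
    (μ ν T : ℝ) : ℝ :=
  ∑ i ∈ s, ((R i).eval T * f i (μ + ν * T) + (R i).eval (-T) * f i (μ - ν * T))

theorem mero_Sg {I : Type} {s : Finset I} {R : I → Polynomial ℝ} {f : I → ℝ → ℝ}
    (hf : ∀ i ∈ s, Nice (f i)) (μ ν T : ℝ) : MeromorphicAt (fun T => Sg s R f μ ν T) T := by
  unfold Sg
  have h1 : ∀ (P : Polynomial ℝ), MeromorphicAt (fun T : ℝ => P.eval T) T := fun P =>
    (AnalyticAt.meromorphicAt (by
      have := AnalyticAt.aeval_polynomial (analyticAt_id (𝕜 := ℝ) (z := T)) P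
      simpa using this))
  have h2 : ∀ (P : Polynomial ℝ), MeromorphicAt (fun T : ℝ => P.eval (-T)) T := fun P =>
    (AnalyticAt.meromorphicAt (by
      have := AnalyticAt.aeval_polynomial ((analyticAt_id (𝕜 := ℝ) (z := T)).neg) P
      simpa using this))
  have h3 : ∀ i ∈ s, MeromorphicAt (fun T : ℝ => f i (μ + ν * T)) T := fun i hi =>
    ((hf i hi).mero (μ + ν * T)).comp_analyticAt (g := fun T => μ + ν * T) (by fun_prop)
  have h4 : ∀ i ∈ s, MeromorphicAt (fun T : ℝ => f i (μ - ν * T)) T := fun i hi =>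
    ((hf i hi).mero (μ - ν * T)).comp_analyticAt (g := fun T => μ - ν * T) (by fun_prop)
  refine MeromorphicAt.fun_sum fun i hi => ?_
  exact ((h1 _).mul (h3 i hi)).add ((h2 _).mul (h4 i hi))

theorem cont_Sg {I : Type} {s : Finset I} {R : I → Polynomial ℝ} {f : I → ℝ → ℝ}
    (hf : ∀ i ∈ s, Nice (f i)) {μ ν T : ℝ} (a1 : Real.sin (Real.pi * (μ + ν * T)) ≠ 0)
    (a2 : Real.sin (Real.pi * (μ - ν * T)) ≠ 0) : ContinuousAt (fun T => Sg s R f μ ν T) T := by
  unfold Sg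
  have h3 : ∀ i ∈ s, ContinuousAt (fun T : ℝ => f i (μ + ν * T)) T := fun i hi =>
    ContinuousAt.comp (f := fun T => μ + ν * T) (g := f i) ((hf i hi).an a1).continuousAt
      (by fun_prop)
  have h4 : ∀ i ∈ s, ContinuousAt (fun T : ℝ => f i (μ - ν * T)) T := fun i hi =>
    ContinuousAt.comp (f := fun T => μ - ν * T) (g := f i) ((hf i hi).an a2).continuousAt
      (by fun_prop)
  refine tendsto_finsetSum _ fun i hi => ?_
  refine Tendsto.add (Tendsto.mul ?_ (h3 i hi)) (Tendsto.mul ?_ (h4 i hi))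
  · exact (R i).continuous.continuousAt
  · exact ((R i).continuous.comp continuous_neg).continuousAt

/-- The limit of one side. -/
theorem side_lim_g {I : Type} {s : Finset I} {f : I → ℝ → ℝ} {R : I → Polynomial ℝ} {Q : ℕ}
    (hR : ∀ i ∈ s, (R i).natDegree ≤ 2 * Q) (hf : ∀ i ∈ s, Nice (f i))
    {x y : ℝ} (hx : Real.sin (Real.pi * x) ≠ 0) (hy : Real.sin (Real.pi * y) ≠ 0) {t : ℕ → ℝ}
    (ht : Tendsto t atTop atTop) {X Y : ℕ → ℝ} (hX : Tendsto X atTop (𝓝 x))
    (hY : Tendsto Y atTop (𝓝 y)) :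
    Tendsto (fun J => (∑ i ∈ s, ((R i).eval (t J) * f i (X J) +
      (R i).eval (-t J) * f i (Y J))) / t J ^ (2 * Q)) atTop
      (𝓝 (∑ i ∈ s, (R i).coeff (2 * Q) * (f i x + f i y))) := by
  have e : (fun J => (∑ i ∈ s, ((R i).eval (t J) * f i (X J) +
      (R i).eval (-t J) * f i (Y J))) / t J ^ (2 * Q)) = fun J =>
      ∑ i ∈ s, ((R i).eval (1 * t J) / t J ^ (2 * Q) * f i (X J) +
        (R i).eval (-1 * t J) / t J ^ (2 * Q) * f i (Y J)) := by
    funext J
    rw [Finset.sum_div]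
    refine Finset.sum_congr rfl fun i _ => ?_
    rw [one_mul, neg_one_mul]
    ring
  rw [e]
  refine tendsto_finsetSum _ fun i hi => ?_
  rw [mul_add]
  exact ((pol_lim (hR i hi) 1 (by norm_num) ht).mul
    (((hf i hi).an hx).continuousAt.tendsto.comp hX)).add
    ((pol_lim (hR i hi) (-1) (by norm_num) ht).mul
      (((hf i hi).an hy).continuousAt.tendsto.comp hY))

theorem sin_shift (k : ℤ) (z : ℝ) (h : Real.sin (Real.pi * z) ≠ 0) :
    Real.sin (Real.pi * (z + k)) ≠ 0 := by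
  intro h0
  apply h
  rw [mul_add, mul_comm Real.pi (k : ℝ), Real.sin_add_int_mul_pi] at h0
  rcases mul_eq_zero.1 h0 with h1 | h1
  · exfalso
    exact (zpow_ne_zero k (by norm_num : (-1 : ℝ) ≠ 0)) h1
  · exact h1

/-- D1, general -/
theorem shift_gen {I I' : Type} {s : Finset I} {s' : Finset I'} {f : I → ℝ → ℝ} {f' : I' → ℝ → ℝ}
    {Q M M' : ℕ} (hM : 0 < M) (hM' : 0 < M') (hf : ∀ i ∈ s, Nice (f i))
    (hf' : ∀ i ∈ s', Nice (f' i)) (per : ∀ i ∈ s, ∀ z, f i (z + M) = f i z)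
    (per' : ∀ i ∈ s', ∀ z, f' i (z + M') = f' i z) {R : I → Polynomial ℝ} {R' : I' → Polynomial ℝ}
    (hR : ∀ i ∈ s, (R i).natDegree ≤ 2 * Q) (hR' : ∀ i ∈ s', (R' i).natDegree ≤ 2 * Q)
    {μ μ' ν ν' : ℝ} (hμ : 0 < μ) (hμ1 : μ < 1) (hμ' : 0 < μ') (hμ1' : μ' < 1)
    (hν : 0 < ν) (hν' : 0 < ν')
    (hE : ∀ᶠ T in 𝓝 (0 : ℝ), (∑ i ∈ s, ((R i).eval T * f i (μ + ν * T) +
        (R i).eval (-T) * f i (μ - ν * T))) =
      ∑ i ∈ s', ((R' i).eval T * f' i (μ' + ν' * T) + (R' i).eval (-T) * f' i (μ' - ν' * T)))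
    (T : ℝ) (h1 : Real.sin (Real.pi * (μ + ν * T)) ≠ 0) (h2 : Real.sin (Real.pi * (μ - ν * T)) ≠ 0)
    (h1' : Real.sin (Real.pi * (μ' + ν' * T)) ≠ 0)
    (h2' : Real.sin (Real.pi * (μ' - ν' * T)) ≠ 0) :
    (∑ i ∈ s, (R i).coeff (2 * Q) * (f i (μ + ν * T) + f i (μ - ν * T))) =
      ∑ i ∈ s', (R' i).coeff (2 * Q) * (f' i (μ' + ν' * T) + f' i (μ' - ν' * T)) := by
  have hM0 : (0 : ℝ) < M := by exact_mod_cast hM
  have hM0' : (0 : ℝ) < M' := by exact_mod_cast hM'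
  -- the identity everywhere
  have hI : ∀ t : ℝ, Real.sin (Real.pi * (μ + ν * t)) ≠ 0 → Real.sin (Real.pi * (μ - ν * t)) ≠ 0 →
      Real.sin (Real.pi * (μ' + ν' * t)) ≠ 0 → Real.sin (Real.pi * (μ' - ν' * t)) ≠ 0 →
      Sg s R f μ ν t = Sg s' R' f' μ' ν' t := by
    intro t a1 a2 a3 a4
    exact ident (g := fun t => Sg s R f μ ν t) (h := fun t => Sg s' R' f' μ' ν' t)
      (fun x => mero_Sg hf μ ν x) (fun x => mero_Sg hf' μ' ν' x) hE
      (cont_Sg hf a1 a2) (cont_Sg hf' a3 a4)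
  set α : ℝ := ν' * M / (ν * M') with hα
  choose k k' hk hk' using returns α
  set t : ℕ → ℝ := fun J => T + k J * M / ν with ht
  set ε : ℕ → ℝ := fun J => (k J * α - k' J) * M' with hε
  have hkt : Tendsto (fun J => (k J : ℝ)) atTop atTop :=
    tendsto_natCast_atTop_atTop.comp (tendsto_atTop_mono hk tendsto_id)
  have htt : Tendsto t atTop atTop := by
    refine tendsto_atTop_add_const_left _ _ ?_
    have : (fun J => (k J : ℝ) * M / ν) = fun J => (k J : ℝ) * (M / ν) := by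
      funext J; ring
    rw [this]
    exact hkt.atTop_mul_const (by positivity)
  have hε0 : Tendsto ε atTop (𝓝 0) := by
    have h3 : Tendsto (fun J : ℕ => 1 / ((J : ℝ) + 1) * M') atTop (𝓝 (0 * M')) :=
      tendsto_one_div_add_atTop_nhds_zero_nat.mul_const _
    rw [zero_mul] at h3
    refine squeeze_zero_norm (fun J => ?_) h3
    rw [hε, Real.norm_eq_abs, abs_mul, abs_of_pos hM0']
    exact mul_le_mul_of_nonneg_right (hk' J) hM0'.le
  have e1 : ∀ J, ν * t J = ν * T + k J * M := by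
    intro J
    rw [ht]
    field_simp
  have e2 : ∀ J, ν' * t J = ν' * T + ε J + k' J * M' := by
    intro J
    rw [ht, hε, hα]
    field_simp
    ring
  have hX : Tendsto (fun J => μ' + ν' * T + ε J) atTop (𝓝 (μ' + ν' * T)) := by
    simpa using hε0.const_add (μ' + ν' * T)
  have hY : Tendsto (fun J => μ' - ν' * T - ε J) atTop (𝓝 (μ' - ν' * T)) := by
    simpa using hε0.const_sub (μ' - ν' * T)
  have hsX : ∀ᶠ J in atTop, Real.sin (Real.pi * (μ' + ν' * T + ε J)) ≠ 0 :=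
    hX.eventually (sin_ne_nhds h1')
  have hsY : ∀ᶠ J in atTop, Real.sin (Real.pi * (μ' - ν' * T - ε J)) ≠ 0 :=
    hY.eventually (sin_ne_nhds h2')
  have s1 : ∀ J, Real.sin (Real.pi * (μ + ν * t J)) ≠ 0 := by
    intro J
    have h := sin_shift ((k J : ℤ) * M) _ h1
    have e : μ + ν * t J = μ + ν * T + (((k J : ℤ) * (M : ℤ) : ℤ) : ℝ) := by
      rw [e1]; push_cast; ring
    rw [e]
    exact_mod_cast h
  have s2 : ∀ J, Real.sin (Real.pi * (μ - ν * t J)) ≠ 0 := by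
    intro J
    have h := sin_shift (-((k J : ℤ) * M)) _ h2
    have e : μ - ν * t J = μ - ν * T + ((-((k J : ℤ) * (M : ℤ)) : ℤ) : ℝ) := by
      rw [e1]; push_cast; ring
    rw [e]
    exact_mod_cast h
  have s3 : ∀ J, Real.sin (Real.pi * (μ' + ν' * T + ε J)) ≠ 0 →
      Real.sin (Real.pi * (μ' + ν' * t J)) ≠ 0 := by
    intro J hJ
    have h := sin_shift (k' J * M') _ hJ
    have e : μ' + ν' * t J = μ' + ν' * T + ε J + ((k' J * (M' : ℤ) : ℤ) : ℝ) := by
      rw [e2]; push_cast; ring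
    rw [e]
    exact_mod_cast h
  have s4 : ∀ J, Real.sin (Real.pi * (μ' - ν' * T - ε J)) ≠ 0 →
      Real.sin (Real.pi * (μ' - ν' * t J)) ≠ 0 := by
    intro J hJ
    have h := sin_shift (-(k' J * M')) _ hJ
    have e : μ' - ν' * t J = μ' - ν' * T - ε J + ((-(k' J * (M' : ℤ)) : ℤ) : ℝ) := by
      rw [e2]; push_cast; ring
    rw [e]
    exact_mod_cast h
  have pe : ∀ i ∈ s, Function.Periodic (f i) (M : ℝ) := fun i hi z => per i hi z
  have pe' : ∀ i ∈ s', Function.Periodic (f' i) (M' : ℝ) := fun i hi z => per' i hi z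
  have p1 : ∀ i ∈ s, ∀ J, f i (μ + ν * t J) = f i (μ + ν * T) := by
    intro i hi J
    have := ((pe i hi).int_mul (k J : ℤ)) (μ + ν * T)
    rw [← this, e1, Int.cast_natCast]
    congr 1
    ring
  have p2 : ∀ i ∈ s, ∀ J, f i (μ - ν * t J) = f i (μ - ν * T) := by
    intro i hi J
    have := ((pe i hi).int_mul (-(k J : ℤ))) (μ - ν * T)
    rw [← this, e1, Int.cast_neg, Int.cast_natCast]
    congr 1
    ring
  have p3 : ∀ i ∈ s', ∀ J, f' i (μ' + ν' * t J) = f' i (μ' + ν' * T + ε J) := by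
    intro i hi J
    have := ((pe' i hi).int_mul (k' J)) (μ' + ν' * T + ε J)
    rw [← this, e2]
    congr 1
    ring
  have p4 : ∀ i ∈ s', ∀ J, f' i (μ' - ν' * t J) = f' i (μ' - ν' * T - ε J) := by
    intro i hi J
    have := ((pe' i hi).int_mul (-(k' J))) (μ' - ν' * T - ε J)
    rw [← this, e2, Int.cast_neg]
    congr 1
    ring
  have L1 := side_lim_g hR hf h1 h2 htt
    (tendsto_const_nhds (x := μ + ν * T)) (tendsto_const_nhds (x := μ - ν * T))
  have L2 := side_lim_g hR' hf' h1' h2' htt hX hY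
  refine tendsto_nhds_unique (L1.congr' ?_) L2
  filter_upwards [hsX, hsY] with J hJ1 hJ2
  have h5 := hI (t J) (s1 J) (s2 J) (s3 J hJ1) (s4 J hJ2)
  unfold Sg at h5
  have q1 : ∑ i ∈ s, ((R i).eval (t J) * f i (μ + ν * T) + (R i).eval (-t J) * f i (μ - ν * T)) =
      ∑ i ∈ s, ((R i).eval (t J) * f i (μ + ν * t J) +
        (R i).eval (-t J) * f i (μ - ν * t J)) :=
    Finset.sum_congr rfl fun i hi => by rw [p1 i hi, p2 i hi]
  have q2 : ∑ i ∈ s', ((R' i).eval (t J) * f' i (μ' + ν' * T + ε J) +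
      (R' i).eval (-t J) * f' i (μ' - ν' * T - ε J)) =
      ∑ i ∈ s', ((R' i).eval (t J) * f' i (μ' + ν' * t J) +
        (R' i).eval (-t J) * f' i (μ' - ν' * t J)) :=
    Finset.sum_congr rfl fun i hi => by rw [p3 i hi, p4 i hi]
  rw [q1, q2, h5]

end Pool.Agent.Zk62.LN
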