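import Mathlib

set_option autoImplicit false

/-!
Comparison of leading coefficients for identities between shifts of periodic meromorphic functions.
-/

namespace Pool.Agent.Zk62.LN

open Finset Filter Topology

/-- the sum of the shifts -/
noncomputable def Sm (R : ℕ → Polynomial ℝ) (f : ℝ → ℝ) (Q : ℕ) (μ ν T : ℝ) : ℝ :=
  ∑ i ∈ range (Q + 1), ((R i).eval T * iteratedDeriv i f (μ + ν * T) +
    (R i).eval (-T) * iteratedDeriv i f (μ - ν * T))

theorem mero_iter {f : ℝ → ℝ} (hf : ∀ x, MeromorphicAt f x) (i : ℕ) (x : ℝ) :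
    MeromorphicAt (iteratedDeriv i f) x := by
  rw [iteratedDeriv_eq_iterate]
  exact (hf x).iterated_deriv

theorem mero_Sm {R : ℕ → Polynomial ℝ} {f : ℝ → ℝ} (hf : ∀ x, MeromorphicAt f x) (Q : ℕ)
    (μ ν T : ℝ) : MeromorphicAt (fun T => Sm R f Q μ ν T) T := by
  unfold Sm
  have h1 : ∀ (P : Polynomial ℝ), MeromorphicAt (fun T : ℝ => P.eval T) T := fun P =>
    (AnalyticAt.meromorphicAt (by
      have := AnalyticAt.aeval_polynomial (analyticAt_id (𝕜 := ℝ) (z := T)) P
      simpa using this))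
  have h2 : ∀ (P : Polynomial ℝ), MeromorphicAt (fun T : ℝ => P.eval (-T)) T := fun P =>
    (AnalyticAt.meromorphicAt (by
      have := AnalyticAt.aeval_polynomial ((analyticAt_id (𝕜 := ℝ) (z := T)).neg) P
      simpa using this))
  have h3 : ∀ i, MeromorphicAt (fun T : ℝ => iteratedDeriv i f (μ + ν * T)) T := fun i =>
    (mero_iter hf i (μ + ν * T)).comp_analyticAt (g := fun T => μ + ν * T) (by fun_prop)
  have h4 : ∀ i, MeromorphicAt (fun T : ℝ => iteratedDeriv i f (μ - ν * T)) T := fun i =>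
    (mero_iter hf i (μ - ν * T)).comp_analyticAt (g := fun T => μ - ν * T) (by fun_prop)
  refine MeromorphicAt.fun_sum fun i _ => ?_
  exact ((h1 _).mul (h3 i)).add ((h2 _).mul (h4 i))

theorem cont_iter {f : ℝ → ℝ} {x : ℝ} (hf : AnalyticAt ℝ f x) (i : ℕ) :
    ContinuousAt (iteratedDeriv i f) x := by
  rw [iteratedDeriv_eq_iterate]
  exact (hf.iterated_deriv i).continuousAt

theorem cont_Sm {R : ℕ → Polynomial ℝ} {f : ℝ → ℝ} {Q : ℕ} {μ ν T : ℝ}
    (h1 : AnalyticAt ℝ f (μ + ν * T)) (h2 : AnalyticAt ℝ f (μ - ν * T)) :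
    ContinuousAt (fun T => Sm R f Q μ ν T) T := by
  unfold Sm
  have h3 : ∀ i, ContinuousAt (fun T : ℝ => iteratedDeriv i f (μ + ν * T)) T := fun i =>
    ContinuousAt.comp (f := fun T => μ + ν * T) (g := iteratedDeriv i f) (cont_iter h1 i)
      (by fun_prop)
  have h4 : ∀ i, ContinuousAt (fun T : ℝ => iteratedDeriv i f (μ - ν * T)) T := fun i =>
    ContinuousAt.comp (f := fun T => μ - ν * T) (g := iteratedDeriv i f) (cont_iter h2 i)
      (by fun_prop)
  refine tendsto_finsetSum _ fun i _ => ?_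
  refine Tendsto.add (Tendsto.mul ?_ (h3 i)) (Tendsto.mul ?_ (h4 i))
  · exact (R i).continuous.continuousAt
  · exact ((R i).continuous.comp continuous_neg).continuousAt

/-- An identity which holds near zero holds where both sides are analytic. -/
theorem ident {g h : ℝ → ℝ} (hg : ∀ x, MeromorphicAt g x) (hh : ∀ x, MeromorphicAt h x)
    (h0 : ∀ᶠ T in 𝓝 (0 : ℝ), g T = h T) {T : ℝ} (cg : ContinuousAt g T) (ch : ContinuousAt h T) :
    g T = h T := by
  have hm : Meromorphic (fun x => g x - h x) := fun x => (hg x).sub (hh x)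
  have h1 := Meromorphic.exists_meromorphicOrderAt_ne_top_iff_forall hm
  have h2 : meromorphicOrderAt (fun x => g x - h x) 0 = ⊤ := by
    rw [meromorphicOrderAt_eq_top_iff]
    refine Filter.Eventually.filter_mono nhdsWithin_le_nhds ?_
    filter_upwards [h0] with x hx
    rw [hx, sub_self]
  have h3 : meromorphicOrderAt (fun x => g x - h x) T = ⊤ := by
    by_contra hne
    exact (h1.1 ⟨T, hne⟩) 0 h2
  rw [meromorphicOrderAt_eq_top_iff] at h3
  have h4 : Tendsto (fun x => g x - h x) (𝓝[≠] T) (𝓝 (g T - h T)) :=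
    (cg.sub ch).mono_left nhdsWithin_le_nhds
  have h5 : Tendsto (fun x => g x - h x) (𝓝[≠] T) (𝓝 0) :=
    tendsto_const_nhds.congr' (by filter_upwards [h3] with x hx; rw [hx])
  have h6 := tendsto_nhds_unique h4 h5
  linarith

theorem per_iter {f : ℝ → ℝ} {c : ℝ} (h : Function.Periodic f c) (i : ℕ) :
    Function.Periodic (iteratedDeriv i f) c := by
  intro z
  have h1 := congrFun (iteratedDeriv_comp_add_const i f c) z
  have h2 : (fun z => f (z + c)) = f := funext h
  rw [h2] at h1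
  exact h1.symm

theorem sin_per {M : ℕ} (he : Even M) (k : ℤ) (z : ℝ) :
    Real.sin (Real.pi * (z + k * M)) = Real.sin (Real.pi * z) := by
  obtain ⟨m, rfl⟩ := he
  have e : Real.pi * (z + k * ((m + m : ℕ) : ℝ)) = Real.pi * z + ((k * m : ℤ) : ℝ) * (2 * Real.pi) := by
    push_cast
    ring
  rw [e, Real.sin_add_int_mul_two_pi]

theorem per_f {F : ℝ → ℝ} {κ M : ℕ} (he : Even M) (per : ∀ z, F (z + M) = F z) :
    Function.Periodic (fun z => F z / Real.sin (Real.pi * z) ^ κ) (M : ℝ) := by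
  intro z
  have h := sin_per he 1 z
  rw [Int.cast_one, one_mul] at h
  simp only
  rw [per, h]

theorem an_f {F : ℝ → ℝ} {κ : ℕ} (hF : ∀ x, AnalyticAt ℝ F x) {x : ℝ}
    (h : Real.sin (Real.pi * x) ≠ 0) :
    AnalyticAt ℝ (fun z => F z / Real.sin (Real.pi * z) ^ κ) x := by
  refine (hF x).div ?_ (pow_ne_zero _ h)
  have h1 : AnalyticAt ℝ (fun z : ℝ => Real.sin (Real.pi * z)) x :=
    Real.analyticAt_sin.fun_comp (by fun_prop)
  exact h1.pow κ

theorem mero_f {F : ℝ → ℝ} {κ : ℕ} (hF : ∀ x, AnalyticAt ℝ F x) (x : ℝ) :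
    MeromorphicAt (fun z => F z / Real.sin (Real.pi * z) ^ κ) x := by
  have h1 : AnalyticAt ℝ (fun z : ℝ => Real.sin (Real.pi * z)) x :=
    Real.analyticAt_sin.fun_comp (by fun_prop)
  exact (hF x).meromorphicAt.div (h1.pow κ).meromorphicAt

/-- Return times: multiples of `α` which are almost integers. -/
theorem returns (α : ℝ) (J : ℕ) : ∃ (k : ℕ) (k' : ℤ), J ≤ k ∧ |k * α - k'| ≤ 1 / (J + 1 : ℝ) := by
  obtain ⟨j, k, hk, -, h⟩ := Real.exists_int_int_abs_mul_sub_le α
    (n := (J + 1) ^ 2) (by positivity)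
  obtain ⟨n, rfl⟩ : ∃ n : ℕ, k = n := ⟨k.toNat, by omega⟩
  refine ⟨n * (J + 1), j * (J + 1), ?_, ?_⟩
  · have : 0 < n := by omega
    nlinarith
  · have e : ((n * (J + 1) : ℕ) : ℝ) * α - ((j * (J + 1) : ℤ) : ℝ) =
        ((n : ℤ) * α - j) * ((J : ℝ) + 1) := by
      push_cast
      ring
    rw [e, abs_mul, abs_of_pos (by positivity : (0 : ℝ) < J + 1)]
    calc |((n : ℤ) : ℝ) * α - j| * ((J : ℝ) + 1) ≤
        1 / ((((J + 1) ^ 2 : ℕ) : ℝ) + 1) * ((J : ℝ) + 1) := by gcongr
      _ ≤ 1 / (J + 1) := by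
        push_cast
        rw [div_mul_eq_mul_div, one_mul, div_le_div_iff₀ (by positivity) (by positivity)]
        nlinarith

theorem pol_lim {P : Polynomial ℝ} {Q : ℕ} (hP : P.natDegree ≤ 2 * Q) (s : ℝ) (hs : s ^ 2 = 1)
    {t : ℕ → ℝ} (ht : Tendsto t atTop atTop) :
    Tendsto (fun J => P.eval (s * t J) / t J ^ (2 * Q)) atTop (𝓝 (P.coeff (2 * Q))) := by
  have h1 : ∀ x : ℝ, P.eval (s * x) / x ^ (2 * Q) =
      ∑ j ∈ range (2 * Q + 1), P.coeff j * s ^ j * (x ^ j / x ^ (2 * Q)) := by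
    intro x
    rw [Polynomial.eval_eq_sum_range' (n := 2 * Q + 1) (by omega), Finset.sum_div]
    refine Finset.sum_congr rfl fun j _ => ?_
    rw [mul_pow]
    ring
  have h2 : P.coeff (2 * Q) = ∑ j ∈ range (2 * Q + 1),
      P.coeff j * s ^ j * (if j = 2 * Q then 1 else 0) := by
    rw [Finset.sum_eq_single (2 * Q)]
    · rw [if_pos rfl, pow_mul, hs, one_pow, mul_one, mul_one]
    · intro j _ hj
      rw [if_neg hj, mul_zero]
    · intro h
      exact absurd (Finset.mem_range.2 (by omega)) h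
  rw [h2]
  have h3 : (fun J => P.eval (s * t J) / t J ^ (2 * Q)) = fun J =>
      ∑ j ∈ range (2 * Q + 1), P.coeff j * s ^ j * (t J ^ j / t J ^ (2 * Q)) :=
    funext fun J => h1 (t J)
  rw [h3]
  refine tendsto_finsetSum _ fun j hj => Tendsto.mul tendsto_const_nhds ?_
  rw [Finset.mem_range] at hj
  split_ifs with h
  · subst h
    refine tendsto_const_nhds.congr' ?_
    filter_upwards [ht.eventually_gt_atTop 0] with J hJ
    rw [div_self (by positivity)]
  · exact (tendsto_pow_div_pow_atTop_zero (by omega)).comp ht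

/-- The limit of one side. -/
theorem side_lim {f : ℝ → ℝ} {R : ℕ → Polynomial ℝ} {Q : ℕ} (hR : ∀ i, (R i).natDegree ≤ 2 * Q)
    {x y : ℝ} (hx : AnalyticAt ℝ f x) (hy : AnalyticAt ℝ f y) {t : ℕ → ℝ}
    (ht : Tendsto t atTop atTop) {X Y : ℕ → ℝ} (hX : Tendsto X atTop (𝓝 x))
    (hY : Tendsto Y atTop (𝓝 y)) :
    Tendsto (fun J => (∑ i ∈ range (Q + 1), ((R i).eval (t J) * iteratedDeriv i f (X J) +
      (R i).eval (-t J) * iteratedDeriv i f (Y J))) / t J ^ (2 * Q)) atTop
      (𝓝 (∑ i ∈ range (Q + 1), (R i).coeff (2 * Q) *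
        (iteratedDeriv i f x + iteratedDeriv i f y))) := by
  have e : (fun J => (∑ i ∈ range (Q + 1), ((R i).eval (t J) * iteratedDeriv i f (X J) +
      (R i).eval (-t J) * iteratedDeriv i f (Y J))) / t J ^ (2 * Q)) = fun J =>
      ∑ i ∈ range (Q + 1), ((R i).eval (1 * t J) / t J ^ (2 * Q) * iteratedDeriv i f (X J) +
        (R i).eval (-1 * t J) / t J ^ (2 * Q) * iteratedDeriv i f (Y J)) := by
    funext J
    rw [Finset.sum_div]
    refine Finset.sum_congr rfl fun i _ => ?_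
    rw [one_mul, neg_one_mul]
    ring
  rw [e]
  refine tendsto_finsetSum _ fun i _ => ?_
  rw [mul_add]
  exact ((pol_lim (hR i) 1 (by norm_num) ht).mul ((cont_iter hx i).tendsto.comp hX)).add
    ((pol_lim (hR i) (-1) (by norm_num) ht).mul ((cont_iter hy i).tendsto.comp hY))

/-- D1 -/
theorem shift_limit {F F' : ℝ → ℝ} {κ κ' Q M M' : ℕ} (hM : 0 < M) (hM' : 0 < M') (he : Even M)
    (he' : Even M') (hF : ∀ x, AnalyticAt ℝ F x) (hF' : ∀ x, AnalyticAt ℝ F' x)
    (per : ∀ z, F (z + M) = F z) (per' : ∀ z, F' (z + M') = F' z) {R R' : ℕ → Polynomial ℝ}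
    (hR : ∀ i, (R i).natDegree ≤ 2 * Q) (hR' : ∀ i, (R' i).natDegree ≤ 2 * Q)
    {μ μ' ν ν' : ℝ} (hμ : 0 < μ) (hμ1 : μ < 1) (hμ' : 0 < μ') (hμ1' : μ' < 1)
    (hν : 0 < ν) (hν' : 0 < ν')
    (hE : ∀ᶠ T in 𝓝 (0 : ℝ), (∑ i ∈ range (Q + 1), ((R i).eval T *
          iteratedDeriv i (fun z => F z / Real.sin (Real.pi * z) ^ κ) (μ + ν * T) +
        (R i).eval (-T) *
          iteratedDeriv i (fun z => F z / Real.sin (Real.pi * z) ^ κ) (μ - ν * T))) =
      ∑ i ∈ range (Q + 1), ((R' i).eval T *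
          iteratedDeriv i (fun z => F' z / Real.sin (Real.pi * z) ^ κ') (μ' + ν' * T) +
        (R' i).eval (-T) *
          iteratedDeriv i (fun z => F' z / Real.sin (Real.pi * z) ^ κ') (μ' - ν' * T)))
    (T : ℝ) (h1 : Real.sin (Real.pi * (μ + ν * T)) ≠ 0) (h2 : Real.sin (Real.pi * (μ - ν * T)) ≠ 0)
    (h1' : Real.sin (Real.pi * (μ' + ν' * T)) ≠ 0)
    (h2' : Real.sin (Real.pi * (μ' - ν' * T)) ≠ 0) :
    (∑ i ∈ range (Q + 1), (R i).coeff (2 * Q) *
        (iteratedDeriv i (fun z => F z / Real.sin (Real.pi * z) ^ κ) (μ + ν * T) +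
        iteratedDeriv i (fun z => F z / Real.sin (Real.pi * z) ^ κ) (μ - ν * T))) =
      ∑ i ∈ range (Q + 1), (R' i).coeff (2 * Q) *
        (iteratedDeriv i (fun z => F' z / Real.sin (Real.pi * z) ^ κ') (μ' + ν' * T) +
        iteratedDeriv i (fun z => F' z / Real.sin (Real.pi * z) ^ κ') (μ' - ν' * T)) := by
  set f : ℝ → ℝ := fun z => F z / Real.sin (Real.pi * z) ^ κ with hf
  set f' : ℝ → ℝ := fun z => F' z / Real.sin (Real.pi * z) ^ κ' with hf'
  have hM0 : (0 : ℝ) < M := by exact_mod_cast hM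
  have hM0' : (0 : ℝ) < M' := by exact_mod_cast hM'
  -- the identity everywhere
  have hI : ∀ t : ℝ, Real.sin (Real.pi * (μ + ν * t)) ≠ 0 → Real.sin (Real.pi * (μ - ν * t)) ≠ 0 →
      Real.sin (Real.pi * (μ' + ν' * t)) ≠ 0 → Real.sin (Real.pi * (μ' - ν' * t)) ≠ 0 →
      Sm R f Q μ ν t = Sm R' f' Q μ' ν' t := by
    intro t a1 a2 a3 a4
    exact ident (g := fun t => Sm R f Q μ ν t) (h := fun t => Sm R' f' Q μ' ν' t)
      (fun x => mero_Sm (mero_f hF) Q μ ν x) (fun x => mero_Sm (mero_f hF') Q μ' ν' x) hE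
      (cont_Sm (an_f hF a1) (an_f hF a2)) (cont_Sm (an_f hF' a3) (an_f hF' a4))
  set α : ℝ := ν' * M / (ν * M') with hα
  choose k k' hk hk' using returns α
  set t : ℕ → ℝ := fun J => T + k J * M / ν with ht
  set ε : ℕ → ℝ := fun J => (k J * α - k' J) * M' with hε
  have hkt : Tendsto (fun J => (k J : ℝ)) atTop atTop :=
    tendsto_natCast_atTop_atTop.comp (tendsto_atTop_mono hk tendsto_id)
  have htt : Tendsto t atTop atTop := by
    refine tendsto_atTop_add_const_left _ _ ?_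
    have : (fun J => (k J : ℝ) * M / ν) = fun J => (k J : ℝ) * (M / ν) := by
      funext J; ring
    rw [this]
    exact hkt.atTop_mul_const (by positivity)
  have hε0 : Tendsto ε atTop (𝓝 0) := by
    have h3 : Tendsto (fun J : ℕ => 1 / ((J : ℝ) + 1) * M') atTop (𝓝 (0 * M')) :=
      tendsto_one_div_add_atTop_nhds_zero_nat.mul_const _
    rw [zero_mul] at h3
    refine squeeze_zero_norm (fun J => ?_) h3
    rw [hε, Real.norm_eq_abs, abs_mul, abs_of_pos hM0']
    exact mul_le_mul_of_nonneg_right (hk' J) hM0'.le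
  have e1 : ∀ J, ν * t J = ν * T + k J * M := by
    intro J
    rw [ht]
    field_simp
  have e2 : ∀ J, ν' * t J = ν' * T + ε J + k' J * M' := by
    intro J
    rw [ht, hε, hα]
    field_simp
    ring
  have hX : Tendsto (fun J => μ' + ν' * T + ε J) atTop (𝓝 (μ' + ν' * T)) := by
    simpa using hε0.const_add (μ' + ν' * T)
  have hY : Tendsto (fun J => μ' - ν' * T - ε J) atTop (𝓝 (μ' - ν' * T)) := by
    simpa using hε0.const_sub (μ' - ν' * T)
  have hsX : ∀ᶠ J in atTop, Real.sin (Real.pi * (μ' + ν' * T + ε J)) ≠ 0 := by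
    have hc : Continuous fun x : ℝ => Real.sin (Real.pi * x) := by fun_prop
    exact ((hc.tendsto _).comp hX).eventually_ne h1'
  have hsY : ∀ᶠ J in atTop, Real.sin (Real.pi * (μ' - ν' * T - ε J)) ≠ 0 := by
    have hc : Continuous fun x : ℝ => Real.sin (Real.pi * x) := by fun_prop
    exact ((hc.tendsto _).comp hY).eventually_ne h2'
  have hpf := per_f (F := F) (κ := κ) he per
  have hpf' := per_f (F := F') (κ := κ') he' per'
  have s1 : ∀ J, Real.sin (Real.pi * (μ + ν * t J)) = Real.sin (Real.pi * (μ + ν * T)) := by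
    intro J
    have := sin_per he (k J : ℤ) (μ + ν * T)
    rw [← this, e1, Int.cast_natCast]
    congr 2
    ring
  have s2 : ∀ J, Real.sin (Real.pi * (μ - ν * t J)) = Real.sin (Real.pi * (μ - ν * T)) := by
    intro J
    have := sin_per he (-(k J : ℤ)) (μ - ν * T)
    rw [← this, e1, Int.cast_neg, Int.cast_natCast]
    congr 2
    ring
  have s3 : ∀ J, Real.sin (Real.pi * (μ' + ν' * t J)) =
      Real.sin (Real.pi * (μ' + ν' * T + ε J)) := by
    intro J
    have := sin_per he' (k' J) (μ' + ν' * T + ε J)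
    rw [← this, e2]
    congr 2
    ring
  have s4 : ∀ J, Real.sin (Real.pi * (μ' - ν' * t J)) =
      Real.sin (Real.pi * (μ' - ν' * T - ε J)) := by
    intro J
    have := sin_per he' (-(k' J)) (μ' - ν' * T - ε J)
    rw [← this, e2, Int.cast_neg]
    congr 2
    ring
  have p1 : ∀ i J, iteratedDeriv i f (μ + ν * t J) = iteratedDeriv i f (μ + ν * T) := by
    intro i J
    have := ((per_iter hpf i).int_mul (k J : ℤ)) (μ + ν * T)
    rw [← this, e1, Int.cast_natCast]
    congr 1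
    ring
  have p2 : ∀ i J, iteratedDeriv i f (μ - ν * t J) = iteratedDeriv i f (μ - ν * T) := by
    intro i J
    have := ((per_iter hpf i).int_mul (-(k J : ℤ))) (μ - ν * T)
    rw [← this, e1, Int.cast_neg, Int.cast_natCast]
    congr 1
    ring
  have p3 : ∀ i J, iteratedDeriv i f' (μ' + ν' * t J) =
      iteratedDeriv i f' (μ' + ν' * T + ε J) := by
    intro i J
    have := ((per_iter hpf' i).int_mul (k' J)) (μ' + ν' * T + ε J)
    rw [← this, e2]
    congr 1
    ring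
  have p4 : ∀ i J, iteratedDeriv i f' (μ' - ν' * t J) =
      iteratedDeriv i f' (μ' - ν' * T - ε J) := by
    intro i J
    have := ((per_iter hpf' i).int_mul (-(k' J))) (μ' - ν' * T - ε J)
    rw [← this, e2, Int.cast_neg]
    congr 1
    ring
  have L1 := side_lim hR (an_f (κ := κ) hF h1) (an_f (κ := κ) hF h2) htt
    (tendsto_const_nhds (x := μ + ν * T)) (tendsto_const_nhds (x := μ - ν * T))
  have L2 := side_lim hR' (an_f (κ := κ') hF' h1') (an_f (κ := κ') hF' h2') htt hX hY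
  refine tendsto_nhds_unique (L1.congr' ?_) L2
  filter_upwards [hsX, hsY] with J hJ1 hJ2
  have h5 := hI (t J) (by rw [s1]; exact h1) (by rw [s2]; exact h2) (by rw [s3]; exact hJ1)
    (by rw [s4]; exact hJ2)
  unfold Sm at h5
  simp only [p1, p2, p3, p4] at h5
  rw [h5]

end Pool.Agent.Zk62.LN
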