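import Pool.Agent.Zk62.LN.Sg

set_option autoImplicit false

/-!
Comparison of the poles of `H (μ + ν T) + H (μ - ν T)` and `H' (μ' + ν' T) + H' (μ' - ν' T)`.
-/

namespace Pool.Agent.Zk62.LN

open Finset Filter Topology

/-- the coefficient of the sum of the two shifts at `T₀` -/
theorem coef {H : ℝ → ℝ} {N : ℕ} {c : ℝ → ℝ}
    (hL : ∀ z₀, Tendsto (fun z => (z - z₀) ^ N * H z) (𝓝[≠] z₀) (𝓝 (c z₀))) {μ ν : ℝ} (hν : 0 < ν)
    (T₀ : ℝ) : Tendsto (fun T => (T - T₀) ^ N * (H (μ + ν * T) + H (μ - ν * T))) (𝓝[≠] T₀)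
      (𝓝 ((c (μ + ν * T₀) + (-1) ^ N * c (μ - ν * T₀)) / ν ^ N)) := by
  have m1 : Tendsto (fun T : ℝ => μ + ν * T) (𝓝[≠] T₀) (𝓝[≠] (μ + ν * T₀)) := by
    refine tendsto_nhdsWithin_of_tendsto_nhds_of_eventually_within _ ?_ ?_
    · exact (Continuous.tendsto (by fun_prop) T₀).mono_left nhdsWithin_le_nhds
    · filter_upwards [self_mem_nhdsWithin] with T hT h
      apply hT
      have h1 : μ + ν * T = μ + ν * T₀ := h
      have h2 : ν * T = ν * T₀ := by linarith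
      exact mul_left_cancel₀ hν.ne' h2
  have m2 : Tendsto (fun T : ℝ => μ - ν * T) (𝓝[≠] T₀) (𝓝[≠] (μ - ν * T₀)) := by
    refine tendsto_nhdsWithin_of_tendsto_nhds_of_eventually_within _ ?_ ?_
    · exact (Continuous.tendsto (by fun_prop) T₀).mono_left nhdsWithin_le_nhds
    · filter_upwards [self_mem_nhdsWithin] with T hT h
      apply hT
      have h1 : μ - ν * T = μ - ν * T₀ := h
      have h2 : ν * T = ν * T₀ := by linarith
      exact mul_left_cancel₀ hν.ne' h2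
  have l1 := ((hL (μ + ν * T₀)).comp m1).div_const (ν ^ N)
  have l2 := (((hL (μ - ν * T₀)).comp m2).const_mul ((-1) ^ N)).div_const (ν ^ N)
  have hp : ν ^ N ≠ 0 := pow_ne_zero _ hν.ne'
  rw [add_div]
  refine (l1.add l2).congr fun T => ?_
  simp only [Function.comp_apply]
  have e1 : μ + ν * T - (μ + ν * T₀) = ν * (T - T₀) := by ring
  have e2 : μ - ν * T - (μ - ν * T₀) = (-1) * (ν * (T - T₀)) := by ring
  have e3 : ((-1 : ℝ)) ^ N * (-1) ^ N = 1 := by
    rw [← mul_pow]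
    norm_num
  rw [e1, e2, mul_pow (-1 : ℝ), mul_pow ν]
  have e4 : (-1 : ℝ) ^ N * ((-1) ^ N * (ν ^ N * (T - T₀) ^ N) * H (μ - ν * T)) =
      ν ^ N * (T - T₀) ^ N * H (μ - ν * T) := by
    rw [← mul_assoc, ← mul_assoc, e3, one_mul]
  rw [e4]
  field_simp

theorem ne_int {c : ℝ → ℝ} (hc : ∀ z, Real.sin (Real.pi * z) ≠ 0 → c z = 0) (hc0 : c 0 = 0)
    {z : ℝ} (h : c z ≠ 0) : ∃ m : ℤ, m ≠ 0 ∧ z = m := by
  have h1 : Real.sin (Real.pi * z) = 0 := by
    by_contra h2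
    exact h (hc z h2)
  rw [Real.sin_eq_zero_iff] at h1
  obtain ⟨m, hm⟩ := h1
  refine ⟨m, ?_, ?_⟩
  · rintro rfl
    apply h
    have : z = 0 := by
      have h2 : Real.pi * z = 0 := by rw [← hm]; simp
      exact (mul_eq_zero.1 h2).resolve_left Real.pi_ne_zero
    rw [this, hc0]
  · have h2 : Real.pi * z = Real.pi * m := by rw [← hm]; ring
    exact mul_left_cancel₀ Real.pi_ne_zero h2

theorem pow_le_of {g : ℝ → ℝ} {N N' : ℕ} {e e' T₀ : ℝ}
    (h1 : Tendsto (fun T => (T - T₀) ^ N * g T) (𝓝[≠] T₀) (𝓝 e))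
    (h2 : Tendsto (fun T => (T - T₀) ^ N' * g T) (𝓝[≠] T₀) (𝓝 e')) (h : e' ≠ 0) : N' ≤ N := by
  by_contra hlt
  obtain ⟨d, hd⟩ := Nat.exists_eq_add_of_lt (not_le.1 hlt)
  have l0 : Tendsto (fun T : ℝ => (T - T₀) ^ (d + 1)) (𝓝[≠] T₀) (𝓝 0) := by
    have : Tendsto (fun T : ℝ => (T - T₀) ^ (d + 1)) (𝓝 T₀) (𝓝 ((T₀ - T₀) ^ (d + 1))) :=
      Continuous.tendsto (by fun_prop) T₀
    rw [sub_self, zero_pow (by omega)] at this
    exact this.mono_left nhdsWithin_le_nhds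
  have l1 := l0.mul h1
  rw [zero_mul] at l1
  apply h
  refine tendsto_nhds_unique h2 (l1.congr fun T => ?_)
  rw [hd]
  ring

theorem near {a b : ℝ} (hb : b ≠ 0) (T₀ : ℝ) :
    ∀ᶠ T in 𝓝[≠] T₀, Real.sin (Real.pi * (a + b * T)) ≠ 0 := by
  have m1 : Tendsto (fun T : ℝ => a + b * T) (𝓝[≠] T₀) (𝓝[≠] (a + b * T₀)) := by
    refine tendsto_nhdsWithin_of_tendsto_nhds_of_eventually_within _ ?_ ?_
    · exact (Continuous.tendsto (by fun_prop) T₀).mono_left nhdsWithin_le_nhds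
    · filter_upwards [self_mem_nhdsWithin] with T hT h
      apply hT
      have h1 : a + b * T = a + b * T₀ := h
      have h2 : b * T = b * T₀ := by linarith
      exact mul_left_cancel₀ hb h2
  exact m1.eventually (sin_ne_punct (a + b * T₀))

/-- the first pole -/
theorem first {N : ℕ} {c : ℝ → ℝ} {μ ν : ℝ} (hμ : 0 < μ) (hμ1 : μ < 1)
    (hν : 0 < ν) (hc : ∀ z, Real.sin (Real.pi * z) ≠ 0 → c z = 0) (hc0 : c 0 = 0) :
    c (μ + ν * ((1 - μ) / ν)) + (-1) ^ N * c (μ - ν * ((1 - μ) / ν)) = c 1 := by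
  have e1 : ν * ((1 - μ) / ν) = 1 - μ := by field_simp
  rw [e1]
  have e2 : c (μ - (1 - μ)) = 0 := by
    by_contra h
    obtain ⟨m, hm, he⟩ := ne_int hc hc0 h
    have h1 : (m : ℝ) < 1 := by rw [← he]; linarith
    have h2 : (-1 : ℝ) < m := by rw [← he]; linarith
    have h3 : m < 1 := by exact_mod_cast h1
    have h4 : -1 < m := by exact_mod_cast h2
    omega
  rw [e2, mul_zero, add_zero]
  congr 1
  ring

/-- a lower bound for the poles -/
theorem low {N : ℕ} {c : ℝ → ℝ} {μ ν T : ℝ} (hμ : 0 < μ) (hμ1 : μ < 1)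
    (hν : 0 < ν) (hT : 0 < T) (hc : ∀ z, Real.sin (Real.pi * z) ≠ 0 → c z = 0) (hc0 : c 0 = 0)
    (h : c (μ + ν * T) + (-1) ^ N * c (μ - ν * T) ≠ 0) : (1 - μ) / ν ≤ T := by
  rw [div_le_iff₀ hν]
  by_cases h1 : c (μ + ν * T) = 0
  · have h2 : c (μ - ν * T) ≠ 0 := by
      intro h3
      apply h
      rw [h1, h3]
      ring
    obtain ⟨m, hm, he⟩ := ne_int hc hc0 h2
    have hp : 0 < ν * T := by positivity
    have h3 : (m : ℝ) < 1 := by rw [← he]; linarith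
    have h4 : m < 1 := by exact_mod_cast h3
    have h5 : m ≤ -1 := by omega
    have h6 : (m : ℝ) ≤ -1 := by exact_mod_cast h5
    nlinarith
  · obtain ⟨m, hm, he⟩ := ne_int hc hc0 h1
    have hp : 0 < ν * T := by positivity
    have h3 : (0 : ℝ) < m := by rw [← he]; linarith
    have h4 : 0 < m := by exact_mod_cast h3
    have h6 : (1 : ℝ) ≤ m := by exact_mod_cast h4
    nlinarith

/-- comparison of the poles, for the exclusion of equal products -/
theorem tieC {H H' : ℝ → ℝ} {N N' : ℕ} {c c' : ℝ → ℝ} (hN : 1 ≤ N) (hN' : 1 ≤ N')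
    (hL : ∀ z₀, Tendsto (fun z => (z - z₀) ^ N * H z) (𝓝[≠] z₀) (𝓝 (c z₀)))
    (hL' : ∀ z₀, Tendsto (fun z => (z - z₀) ^ N' * H' z) (𝓝[≠] z₀) (𝓝 (c' z₀)))
    (hc : ∀ z, Real.sin (Real.pi * z) ≠ 0 → c z = 0)
    (hc' : ∀ z, Real.sin (Real.pi * z) ≠ 0 → c' z = 0) (hc0 : c 0 = 0) (hc0' : c' 0 = 0)
    (h1 : c 1 ≠ 0) (h1' : c' 1 ≠ 0)
    {μ μ' ν ν' : ℝ} (hμ : 0 < μ) (hμ1 : μ < 1) (hμ' : 0 < μ') (hμ1' : μ' < 1)
    (hν : 0 < ν) (hν' : 0 < ν') (ht : μ ^ 2 + ν ^ 2 < 1) (ht' : μ' ^ 2 + ν' ^ 2 = 1)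
    (hE : ∀ T : ℝ, Real.sin (Real.pi * (μ + ν * T)) ≠ 0 → Real.sin (Real.pi * (μ - ν * T)) ≠ 0 →
      Real.sin (Real.pi * (μ' + ν' * T)) ≠ 0 → Real.sin (Real.pi * (μ' - ν' * T)) ≠ 0 →
      H (μ + ν * T) + H (μ - ν * T) = H' (μ' + ν' * T) + H' (μ' - ν' * T)) :
    N = N' ∧ c 1 * ν' ^ N = c' 1 * ν ^ N ∧
      (c' (-1) ≠ 0 → c' 2 + (-1) ^ N * c' (-1) ≠ 0 →
        c 2 * ν' ^ N = (-1) ^ N * c' (-1) * ν ^ N) := by
  have hsin : ∀ (a b T₀ : ℝ), b ≠ 0 → ∀ᶠ T in 𝓝[≠] T₀, Real.sin (Real.pi * (a + b * T)) ≠ 0 := by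
    intro a b T₀ hb
    exact near hb T₀
  have hev : ∀ T₀ : ℝ, ∀ᶠ T in 𝓝[≠] T₀,
      H (μ + ν * T) + H (μ - ν * T) = H' (μ' + ν' * T) + H' (μ' - ν' * T) := by
    intro T₀
    filter_upwards [hsin μ ν T₀ hν.ne', hsin μ (-ν) T₀ (neg_ne_zero.2 hν.ne'),
      hsin μ' ν' T₀ hν'.ne', hsin μ' (-ν') T₀ (neg_ne_zero.2 hν'.ne')] with T a1 a2 a3 a4
    have b2 : Real.sin (Real.pi * (μ - ν * T)) ≠ 0 := by
      rw [show μ - ν * T = μ + -ν * T by ring]; exact a2
    have b4 : Real.sin (Real.pi * (μ' - ν' * T)) ≠ 0 := by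
      rw [show μ' - ν' * T = μ' + -ν' * T by ring]; exact a4
    exact hE T a1 b2 a3 b4
  have L : ∀ T₀ : ℝ, Tendsto (fun T => (T - T₀) ^ N * (H (μ + ν * T) + H (μ - ν * T))) (𝓝[≠] T₀)
      (𝓝 ((c (μ + ν * T₀) + (-1) ^ N * c (μ - ν * T₀)) / ν ^ N)) := fun T₀ => coef hL hν T₀
  have L' : ∀ T₀ : ℝ, Tendsto (fun T => (T - T₀) ^ N' * (H (μ + ν * T) + H (μ - ν * T)))
      (𝓝[≠] T₀) (𝓝 ((c' (μ' + ν' * T₀) + (-1) ^ N' * c' (μ' - ν' * T₀)) / ν' ^ N')) := by
    intro T₀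
    refine (coef hL' hν' T₀).congr' ?_
    filter_upwards [hev T₀] with T hT
    rw [hT]
  have f1 := first (N := N) hμ hμ1 hν hc hc0
  have f1' := first (N := N') hμ' hμ1' hν' hc' hc0'
  have hNN : N = N' := by
    apply le_antisymm
    · refine pow_le_of (L' ((1 - μ) / ν)) (L ((1 - μ) / ν)) ?_
      rw [f1]
      exact div_ne_zero h1 (pow_ne_zero _ hν.ne')
    · refine pow_le_of (L ((1 - μ') / ν')) (L' ((1 - μ') / ν')) ?_
      rw [f1']
      exact div_ne_zero h1' (pow_ne_zero _ hν'.ne')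
  subst hNN
  have hEq : ∀ T₀ : ℝ, (c (μ + ν * T₀) + (-1) ^ N * c (μ - ν * T₀)) * ν' ^ N =
      (c' (μ' + ν' * T₀) + (-1) ^ N * c' (μ' - ν' * T₀)) * ν ^ N := by
    intro T₀
    have h := tendsto_nhds_unique (L T₀) (L' T₀)
    rwa [div_eq_div_iff (pow_ne_zero _ hν.ne') (pow_ne_zero _ hν'.ne')] at h
  have hTp : 0 < (1 - μ) / ν := div_pos (by linarith) hν
  have hTp' : 0 < (1 - μ') / ν' := div_pos (by linarith) hν'
  have hle : (1 - μ') / ν' ≤ (1 - μ) / ν := by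
    refine low (N := N) hμ' hμ1' hν' hTp hc' hc0' fun h0 => ?_
    have h := hEq ((1 - μ) / ν)
    rw [h0, f1, zero_mul] at h
    exact (mul_ne_zero h1 (pow_ne_zero _ hν'.ne')) h
  have hge : (1 - μ) / ν ≤ (1 - μ') / ν' := by
    refine low (N := N) hμ hμ1 hν hTp' hc hc0 fun h0 => ?_
    have h := hEq ((1 - μ') / ν')
    rw [h0, f1', zero_mul] at h
    exact (mul_ne_zero h1' (pow_ne_zero _ hν.ne')) h.symm
  have hT : (1 - μ) / ν = (1 - μ') / ν' := le_antisymm hge hle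
  refine ⟨rfl, ?_, ?_⟩
  · have h := hEq ((1 - μ) / ν)
    rw [f1, hT, f1'] at h
    exact h
  · intro hm1 hm2
    -- comparison of the parameters
    have hcr : (1 - μ) * ν' = (1 - μ') * ν := by
      rwa [div_eq_div_iff hν.ne' hν'.ne'] at hT
    have hmu : μ' < μ := by
      by_contra hcon
      have hcon := not_lt.1 hcon
      have hnn : ν' ≤ ν := by
        by_contra h2
        have h2 := not_le.1 h2
        nlinarith
      have h3 : (1 - μ') ^ 2 * ν ^ 2 = (1 - μ) ^ 2 * ν' ^ 2 := by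
        rw [← mul_pow, ← mul_pow, hcr]
      have h4 : ν ^ 2 < (1 - μ) * (1 + μ) := by nlinarith
      have h5 : ν' ^ 2 = (1 - μ') * (1 + μ') := by nlinarith
      have h6 : (1 - μ') ^ 2 * ν ^ 2 < (1 - μ') ^ 2 * ((1 - μ) * (1 + μ)) :=
        mul_lt_mul_of_pos_left h4 (by nlinarith)
      have h7 : (1 - μ) ^ 2 * ((1 - μ') * (1 + μ')) < (1 - μ') ^ 2 * ((1 - μ) * (1 + μ)) := by
        rw [← h5, ← h3]; exact h6
      have h8 : (1 - μ) * (1 - μ') * ((1 - μ) * (1 + μ')) <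
          (1 - μ) * (1 - μ') * ((1 - μ') * (1 + μ)) := by nlinarith
      have h9 : (1 - μ) * (1 + μ') < (1 - μ') * (1 + μ) :=
        lt_of_mul_lt_mul_left h8 (by nlinarith)
      nlinarith
    have hnu : ν < ν' := by
      by_contra h2
      have h2 := not_lt.1 h2
      nlinarith
    set A : ℝ := (1 + μ') / ν' with hA
    have hA0 : 0 < A := by positivity
    have hA1 : ν' * A = 1 + μ' := by
      rw [hA]; field_simp
    have hlt : ν * A < 1 + μ := by
      -- `ν' (1 + μ) > ν (1 + μ')`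
      have h2 : ν * (1 + μ') < (1 + μ) * ν' := by nlinarith
      have h3 : ν * A * ν' < (1 + μ) * ν' := by
        calc ν * A * ν' = ν * (ν' * A) := by ring
          _ = ν * (1 + μ') := by rw [hA1]
          _ < _ := h2
      exact lt_of_mul_lt_mul_right h3 hν'.le
    have hE2 := hEq A
    have e1 : μ' - ν' * A = -1 := by rw [hA1]; ring
    have e2 : μ' + ν' * A = 1 + 2 * μ' := by rw [hA1]; ring
    rw [e1, e2] at hE2
    have hz : c (μ - ν * A) = 0 := by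
      by_contra h
      obtain ⟨m, hm, he⟩ := ne_int hc hc0 h
      have g1 : 0 < ν * A := by positivity
      have g2 : (m : ℝ) < 1 := by rw [← he]; linarith
      have g3 : m < 1 := by exact_mod_cast g2
      have g4 : m ≤ -1 := by omega
      have g5 : (m : ℝ) ≤ -1 := by exact_mod_cast g4
      linarith
    rw [hz, mul_zero, add_zero] at hE2
    have hR : c' (1 + 2 * μ') + (-1) ^ N * c' (-1) ≠ 0 := by
      by_cases hh : c' (1 + 2 * μ') = 0
      · rw [hh, zero_add]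
        exact mul_ne_zero (pow_ne_zero _ (by norm_num)) hm1
      · obtain ⟨m, hm, he⟩ := ne_int hc' hc0' hh
        have g1 : (1 : ℝ) < m := by rw [← he]; linarith
        have g2 : (m : ℝ) < 3 := by rw [← he]; linarith
        have g3 : 1 < m := by exact_mod_cast g1
        have g4 : m < 3 := by exact_mod_cast g2
        have g5 : m = 2 := by omega
        rw [he, g5]
        exact_mod_cast hm2
    have hcn : c (μ + ν * A) ≠ 0 := by
      intro h
      rw [h, zero_mul] at hE2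
      exact (mul_ne_zero hR (pow_ne_zero _ hν.ne')) hE2.symm
    obtain ⟨m, hm, he⟩ := ne_int hc hc0 hcn
    have g0 : 0 < ν * A := by positivity
    have g1 : (0 : ℝ) < m := by rw [← he]; linarith
    have g2 : (m : ℝ) < 3 := by rw [← he]; linarith
    have g3 : 0 < m := by exact_mod_cast g1
    have g4 : m < 3 := by exact_mod_cast g2
    have g5 : m ≠ 1 := by
      intro h
      rw [h, Int.cast_one] at he
      have k1 : ν * A = 1 - μ := by linarith
      have k2 : A = (1 - μ) / ν := by rw [← k1]; field_simp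
      have k3 : A = (1 - μ') / ν' := by rw [k2, hT]
      have k4 : ν' * A = 1 - μ' := by rw [k3]; field_simp
      linarith
    have g6 : m = 2 := by omega
    rw [g6] at he
    have he : μ + ν * A = 2 := by exact_mod_cast he
    have hne : c' (1 + 2 * μ') = 0 := by
      by_contra h
      obtain ⟨j, hj, hje⟩ := ne_int hc' hc0' h
      have k1 : (1 : ℝ) < j := by rw [← hje]; linarith
      have k2 : (j : ℝ) < 3 := by rw [← hje]; linarith
      have k3 : 1 < j := by exact_mod_cast k1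
      have k4 : j < 3 := by exact_mod_cast k2
      have k5 : j = 2 := by omega
      rw [k5] at hje
      have hje : 1 + 2 * μ' = 2 := by exact_mod_cast hje
      -- then `ν = ν'`
      have k6 : ν' * A - (1 - μ') = 1 := by rw [hA1]; linarith
      have k7 : ν * A - (1 - μ) = 1 := by linarith
      have k8 : A = (1 - μ) / ν + 1 / ν := by
        rw [← add_div, eq_div_iff hν.ne']; linarith
      have k9 : A = (1 - μ') / ν' + 1 / ν' := by
        rw [← add_div, eq_div_iff hν'.ne']; linarith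
      have k10 : 1 / ν = 1 / ν' := by linarith [hT]
      have k11 : 1 / ν' < 1 / ν := one_div_lt_one_div_of_lt hν hnu
      linarith
    rw [he, hne, zero_add] at hE2
    exact hE2

end Pool.Agent.Zk62.LN
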